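import Mathlib
import Pool.Agent.Helper11.ObsThm

/-!
# Images of the cohomology of powers, for a product
-/

universe u v w t

open CategoryTheory

namespace Pool.Agent.Helper11.Sq

open Pool.Agent.Helper10 hiding parityPart IsAlgAut
open SmProjVar SPre Iso Obs

section Mono

variable {k : Type u} [Field k] {K : Type t} [Field K] {Ω : Type v} [Field Ω] [Algebra K Ω]
  {P : SPre.{u, v, w, t} k K Ω}

/-- `(X × Y) ^ n → X ^ n` -/
noncomputable def powFst (X Y : SmProjVar k) : ∀ n : ℕ,
    (Obs.power (X.prod Y) n).toOver ⟶ (Obs.power X n).toOver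
  | 0 => fst X Y
  | n + 1 => Iso.prodMap (powFst X Y n) (fst X Y)

/-- a class with push-forward `1` -/
lemma exists_push_one {X Y : SmProjVar k} (hY : ∃ t : P.H Y, P.tr Y t = 1) (n : ℕ) :
    ∃ η, P.pushF (powFst X Y n) η = 1 := by
  obtain ⟨t, ht⟩ := hY
  have h0 : P.pushF (fst X Y) (P.ext X Y 1 t) = 1 := by
    rw [pushF_fst_ext, ht, one_smul]
  induction n with
  | zero => exact ⟨_, h0⟩
  | succ n ih =>
    obtain ⟨η, hη⟩ := ih
    refine ⟨P.ext _ _ η (P.ext X Y 1 t), ?_⟩
    change P.pushF (Iso.prodMap (powFst X Y n) (fst X Y)) _ = 1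
    rw [pushF_prodMap_ext, hη, h0, SPre.ext, map_one, map_one, _root_.mul_one]

/-- `op` and push-forward in the first variable -/
lemma op_pull_prodMap {A' A V : SmProjVar k} (f : A'.toOver ⟶ A.toOver) (κ : P.H (A.prod V))
    (x : P.H A') :
    op (P.pull (Iso.prodMap f (𝟙 V.toOver)) κ) x = op κ (P.pushF f x) := by
  have h1 : P.pushF (Iso.prodMap f (𝟙 V.toOver)) (P.pull (fst A' V) x) =
      P.pull (fst A V) (P.pushF f x) := by
    have h2 : P.pull (fst A' V) x = P.ext A' V x 1 := by
      rw [SPre.ext, map_one, _root_.mul_one]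
    have h3 : P.pull (fst A V) (P.pushF f x) = P.ext A V (P.pushF f x) 1 := by
      rw [SPre.ext, map_one, _root_.mul_one]
    rw [h2, pushF_prodMap_ext, pushF_id, h3]
  have h4 : Iso.prodMap f (𝟙 V.toOver) ≫ snd A V = snd A' V := by
    unfold Iso.prodMap
    rw [lift_snd, Category.comp_id]
  rw [op_apply, op_apply, ← h4, pushF_comp, pushF_mul_pull, h1]

lemma image_prod_le {X Y V : SmProjVar k} (hY : ∃ t : P.H Y, P.tr Y t = 1) {y : P.H V}
    (hy : y ∈ image P (Obs.power X) V) : y ∈ image P (Obs.power (X.prod Y)) V := by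
  refine image_induction (p := fun y => y ∈ image P (Obs.power (X.prod Y)) V)
    (fun n κ hκ x => ?_) (Submodule.zero_mem _) (fun _ _ => Submodule.add_mem _)
    (fun a _ => Submodule.smul_mem _ a) hy
  obtain ⟨η, hη⟩ := exists_push_one (P := P) (X := X) hY n
  have h1 : P.pushF (powFst X Y n) (P.pull (powFst X Y n) x * η) = x := by
    rw [pushF_pull_mul, hη, _root_.mul_one]
  rw [← h1, ← op_pull_prodMap]
  exact op_mem (Obs.power (X.prod Y)) n (P.pull_mem _ _ hκ) _

end Mono

variable {k : Type u} [Field k] {K : Type v} [Field K] [CharZero K]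
  (W : WeilCohomology.{u, v, w} k K)

lemma imageOfPowers_prod_le (X Y V : SmProjVar k) :
    Obs.imageOfPowers W.toCohomologyData X V ≤
      Obs.imageOfPowers W.toCohomologyData (X.prod Y) V := by
  intro y hy
  obtain ⟨t, -, ht⟩ := exists_tr_one W K Y
  exact mem_of_one_mem_baseChange K
    (image_le_bc W K (image_prod_le ⟨t, ht⟩ (one_mem_image W K hy)))

end Pool.Agent.Helper11.Sq
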