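import Mathlib
import Pool.Agent.Helper10.Weil

/-!
# Varieties of self-dual Tate type
-/

universe u v w

open CategoryTheory

namespace Pool.Agent.Helper11.Sq

open Pool.Agent.Helper10

/-- `power X n` is the product `X ^ (n + 1)` of `n + 1` copies of `X`. -/
noncomputable def power {k : Type u} [Field k] (X : SmProjVar k) : ℕ → SmProjVar k
  | 0 => X
  | n + 1 => (power X n).prod X

variable {k : Type u} [Field k] {K : Type v} [Field K] (W : CohomologyData.{u, v, w} k K)

/-- The classes of even degree in `H(V)` (for `p` even), or the classes of odd degree (for `p`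
odd). -/
def parityPart (V : SmProjVar k) (p : ℕ) : Submodule K (W.H V) := ⨆ i ∈ {i | Even (i + p)}, W.gr V i

/-- The `K`-linear span in `H(V)` of the images of the cohomology of the powers of `X` under maps
`H(X ^ m) → H(V)` induced by algebraic correspondences. (If `X` is a point: the span of the classes
of algebraic cycles.) -/
def imageOfPowers (X V : SmProjVar k) : Submodule K (W.H V) :=
  Submodule.span K {y | ∃ (n : ℕ) (u : W.H (power X n) → W.H V) (x : W.H (power X n)),
    W.IsAlgebraicMap (power X n) V u ∧ y = u x}

/-- The residual classes in `H(V)` with respect to `X`: the subspace of the classes which are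
orthogonal, for the Poincaré duality pairing, to the images of the cohomology of the powers of `X`
under algebraic correspondences. (If `X` is a point: orthogonal to the classes of algebraic
cycles.) -/
def residual (X V : SmProjVar k) : Submodule K (W.H V) :=
  Submodule.span K {y | ∀ x ∈ imageOfPowers W X V, W.pairing V x y = 0}

/-- A symmetry with multiplier `χ` of the cohomology theory `H`: a family of automorphisms `g_X` of
the `K`-algebras `H(X)`, compatible with pull-backs, such that `g_X` multiplies the classes of
algebraic cycles of codimension `j` by `χ ^ j`, and the trace by `χ ^ dim X`. (Example: the action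
of an automorphism of a separable closure of `k` over `k` on `ℓ`-adic cohomology, with `χ` given by
the cyclotomic character.) -/
structure IsSymmetry (g : ∀ X : SmProjVar k, W.H X →ₗ[K] W.H X) (χ : K) : Prop where
  bijective : ∀ X, Function.Bijective (g X)
  map_one : ∀ X, g X 1 = 1
  map_mul : ∀ (X : SmProjVar k) (x y : W.H X), g X (x * y) = g X x * g X y
  pull : ∀ {X Y : SmProjVar k} (f : X.toOver ⟶ Y.toOver) (y : W.H Y),
    g X (W.pull f y) = W.pull f (g Y y)
  ne_zero : χ ≠ 0
  cycle : ∀ (X : SmProjVar k) (j : ℕ) (c : X.Z j), g X (W.cy X j c) = χ ^ j • W.cy X j c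
  trace : ∀ (X : SmProjVar k) (x : W.H X), W.tr X (g X x) = χ ^ X.dim * W.tr X x

/-- `s = (t, c)` consists of an operator `t` on `H(V)` and a non-zero scalar `c`, such that either
`t` is the action on `H(V)` of a symmetry of the cohomology theory with multiplier `c`, or `t` is
induced by an algebraic correspondence from `V` to `V`. (Example of the latter: `k` is finite with
`q` elements, `t` is the Frobenius endomorphism of `V` over `k`, and `c = q`.) -/
def IsOperator (V : SmProjVar k) (s : (W.H V →ₗ[K] W.H V) × K) : Prop :=
  (∃ g, IsSymmetry W g s.2 ∧ s.1 = g V) ∨ (W.IsAlgebraicMap V V s.1 ∧ s.2 ≠ 0)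

section Hom

variable {W} {V : SmProjVar k} (S : Set ((W.H V →ₗ[K] W.H V) × K)) (F F' : Submodule K (W.H V))

/-- The subspace `F` of `H(V)` is stable under the operators in `S`. -/
def IsStable : Prop := ∀ s ∈ S, ∀ y ∈ F, s.1 y ∈ F

/-- `f` is, on `F`, an `S`-homomorphism `F → F'` (up to a Tate twist): it maps the classes of even
(odd) degree in `F` to classes of even (odd) degree in `F'`, and, for some integer `r`, one has
`f (t y) = c ^ r t (f y)` for all `(t, c)` in `S` and all `y` in `F`. -/
structure IsHom (f : W.H V →ₗ[K] W.H V) : Prop where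
  parity : ∀ p, ∀ y ∈ F ⊓ parityPart W V p, f y ∈ F' ⊓ parityPart W V p
  twist : ∃ r : ℤ, ∀ s ∈ S, ∀ y ∈ F, f (s.1 y) = s.2 ^ r • s.1 (f y)

end Hom

/-- `V` is of self-dual Tate type relative to `X`: for some set `S` of operators on `H(V)`, and for
the space `N` of residual classes,
* `N` is a semisimple `S`-module;
* every `S`-homomorphism `N → N` is induced by an algebraic correspondence from `V` to `V`
  (Tate conjecture for `V × V`);
* every non-zero `S`-submodule `F` of `N`, of even or of odd degree, admits an `S`-homomorphism
  `f : F → N` such that `f(F)` is not orthogonal to `F` (this holds for instance if `N` is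
  non-degenerate for the duality pairing, and all its simple `S`-submodules are self-dual up to a
  twist). -/
structure IsSelfDualTate (X V : SmProjVar k) (S : Set ((W.H V →ₗ[K] W.H V) × K)) : Prop where
  operator : ∀ s ∈ S, IsOperator W V s
  semisimple : ∀ F ≤ residual W X V, IsStable S F → ∃ F' ≤ residual W X V, IsStable S F' ∧
    F ⊓ F' = ⊥ ∧ F ⊔ F' = residual W X V
  algebraic : ∀ f, IsHom S (residual W X V) (residual W X V) f →
    ∃ u : W.H V → W.H V, W.IsAlgebraicMap V V u ∧ ∀ y ∈ residual W X V, u y = f y
  dual : ∀ F ≤ residual W X V, IsStable S F → F ≠ ⊥ → (∃ p, F ≤ parityPart W V p) →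
    ∃ f, IsHom S F (residual W X V) f ∧ ∃ x ∈ F, ∃ y ∈ F, W.pairing V x (f y) ≠ 0

/-- The product `(((X × V_1) × V_2) × ⋯) × V_r`. -/
noncomputable def prodList (X : SmProjVar k) (l : List (SmProjVar k)) : SmProjVar k :=
  l.foldl SmProjVar.prod X

end Pool.Agent.Helper11.Sq
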