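import Mathlib
import Pool.Agent.Helper11.Sq.Types
import Pool.Agent.Helper11.Sq.Mono

/-!
# The standard conjecture D and the Tate conjecture for squares
-/

universe u v w t

open CategoryTheory TensorProduct

namespace Pool.Agent.Helper11.Sq

open Pool.Agent.Helper10 hiding parityPart IsAlgAut
open SmProjVar SPre Iso

variable {k : Type u} [Field k] {K : Type v} [Field K] [CharZero K]
  (W : WeilCohomology.{u, v, w} k K)

lemma power_eq (X : SmProjVar k) : power X = Obs.power X := by
  funext n
  induction n with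
  | zero => rfl
  | succ n ih => rw [power, ih]; rfl

lemma imageOfPowers_eq (X V : SmProjVar k) : imageOfPowers W.toCohomologyData X V =
    Obs.imageOfPowers W.toCohomologyData X V := by
  unfold imageOfPowers Obs.imageOfPowers
  rw [power_eq]

lemma parityPart_eq (V : SmProjVar k) (p : ℕ) : parityPart W.toCohomologyData V p =
    Obs.parityPart W.toCohomologyData V p := rfl

/-- residual classes -/
lemma mem_residual {X V : SmProjVar k} {y : W.H V} :
    y ∈ residual W.toCohomologyData X V ↔ Obs.IsResidual W.toCohomologyData X V y := by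
  unfold residual Obs.IsResidual
  rw [imageOfPowers_eq]
  refine ⟨fun h => ?_, fun h => Submodule.subset_span h⟩
  induction h using Submodule.span_induction with
  | mem y hy => exact hy
  | zero =>
    intro x _
    change W.trL V (x * 0) = 0
    rw [mul_zero, map_zero]
  | add a b _ _ ha hb =>
    intro x hx
    change W.trL V (x * (a + b)) = 0
    rw [mul_add, map_add]
    have h1 : W.trL V (x * a) = 0 := ha x hx
    have h2 : W.trL V (x * b) = 0 := hb x hx
    rw [h1, h2, add_zero]
  | smul r a _ ha =>
    intro x hx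
    change W.trL V (x * r • a) = 0
    rw [mul_smul_comm, map_smul]
    have h1 : W.trL V (x * a) = 0 := ha x hx
    rw [h1, smul_zero]

/-! ### operators -/

/-- the symmetries, over `K` -/
noncomputable def ext (g : ∀ X : SmProjVar k, W.H X →ₗ[K] W.H X) (X : SmProjVar k) :
    K ⊗[K] W.H X → K ⊗[K] W.H X := (g X).baseChange K

lemma ext_tmul (g : ∀ X : SmProjVar k, W.H X →ₗ[K] W.H X) (X : SmProjVar k) (a : K)
    (y : W.H X) : ext W g X (a ⊗ₜ[K] y) = a ⊗ₜ[K] g X y := LinearMap.baseChange_tmul _ _ _

lemma ext_add (g : ∀ X : SmProjVar k, W.H X →ₗ[K] W.H X) (X : SmProjVar k)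
    (x y : K ⊗[K] W.H X) : ext W g X (x + y) = ext W g X x + ext W g X y := map_add _ _ _

lemma isSymmetry_ext {g : ∀ X : SmProjVar k, W.H X →ₗ[K] W.H X} {χ : K}
    (hg : IsSymmetry W.toCohomologyData g χ) :
    Obs.IsSymmetry W.toCohomologyData K (ext W g) χ where
  aut X :=
    { bijective := by
        let e : W.H X ≃ₗ[K] W.H X := LinearEquiv.ofBijective (g X) (hg.bijective X)
        have h1 : ext W g X = e.baseChange K K _ _ := by
          funext z
          induction z using TensorProduct.induction_on with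
          | zero => exact (map_zero ((g X).baseChange K)).trans (map_zero _).symm
          | tmul a y => rfl
          | add x y hx hy => rw [ext_add, map_add, hx, hy]
        rw [h1]
        exact (e.baseChange K K _ _).bijective
      map_add := ext_add W g X
      map_smul := fun a x => map_smul ((g X).baseChange K) a x
      map_one := by
        rw [Algebra.TensorProduct.one_def, ext_tmul, hg.map_one]
      map_mul := by
        intro x y
        induction x using TensorProduct.induction_on with
        | zero =>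
          have h0 : ext W g X 0 = 0 := map_zero ((g X).baseChange K)
          rw [zero_mul, h0, zero_mul]
        | add a b ha hb => rw [add_mul, ext_add, ha, hb, ext_add, add_mul]
        | tmul a x =>
          induction y using TensorProduct.induction_on with
          | zero =>
            have h0 : ext W g X 0 = 0 := map_zero ((g X).baseChange K)
            rw [mul_zero, h0, mul_zero]
          | add c d hc hd => rw [mul_add, ext_add, hc, hd, ext_add, mul_add]
          | tmul b y =>
            rw [Algebra.TensorProduct.tmul_mul_tmul, ext_tmul, ext_tmul, ext_tmul,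
              Algebra.TensorProduct.tmul_mul_tmul, hg.map_mul] }
  pull {X Y} f φ hφ z := by
    induction z using TensorProduct.induction_on with
    | zero =>
      have h0 : φ 0 = 0 := by
        have := hφ.map_add 0 0
        rw [add_zero] at this
        simpa using this
      have h1 : ∀ X, ext W g X 0 = 0 := fun X => map_zero ((g X).baseChange K)
      rw [h1, h0, h1]
    | tmul a y => rw [ext_tmul, hφ.map_tmul, hφ.map_tmul, ext_tmul, hg.pull]
    | add x y hx hy => rw [hφ.map_add, ext_add, hx, hy, ext_add, hφ.map_add]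
  ne_zero := hg.ne_zero
  cycle X j c := by
    rw [ext_tmul, hg.cycle, TensorProduct.tmul_smul, TensorProduct.smul_tmul', smul_eq_mul,
      mul_one]
  trace X τ hτ z := by
    induction z using TensorProduct.induction_on with
    | zero =>
      have h0 : τ 0 = 0 := by
        have := hτ.map_add 0 0
        rw [add_zero] at this
        simpa using this
      have h1 : ext W g X 0 = 0 := map_zero ((g X).baseChange K)
      rw [h1, h0, mul_zero]
    | tmul a y =>
      rw [ext_tmul, hτ.map_tmul, hτ.map_tmul, hg.trace]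
      simp only [Algebra.algebraMap_self, RingHom.id_apply]
      ring
    | add x y hx hy => rw [ext_add, hτ.map_add, hx, hy, hτ.map_add, mul_add]

/-- the operator of `S`, over `K ⊗ H`: an algebraic correspondence or a symmetry -/
lemma operator_cases {V : SmProjVar k} {s : (W.H V →ₗ[K] W.H V) × K}
    (hs : IsOperator W.toCohomologyData V s) :
    (∃ γ : (W.toSPre K).Sym, ∀ y, Obs.one W K (s.1 y) = γ.g V (Obs.one W K y)) ∨
      ∃ c ∈ W.algClasses (V.prod V), ∀ y, Obs.one W K (s.1 y) =
        op (Obs.one W K c) (Obs.one W K y) := by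
  rcases hs with ⟨g, hg, h⟩ | ⟨⟨c, hc, h⟩, -⟩
  · refine .inl ⟨W.symSPre K (Obs.isSymmetry W K (isSymmetry_ext W hg)), fun y => ?_⟩
    rw [h]
    exact (ext_tmul W g V 1 y).symm
  · exact .inr ⟨c, hc, fun y => (Obs.op_one W K h y).symm⟩

lemma one_mem_bc_iff {V : SmProjVar k} {F : Submodule K (W.H V)} {y : W.H V} :
    Obs.one W K y ∈ Obs.bc W K F ↔ y ∈ F :=
  ⟨fun h => Obs.mem_of_one_mem_baseChange K h, fun h => Obs.one_mem_bc W K h⟩

lemma parity_eq (V : SmProjVar k) (p : ℕ) :
    (Even p → parityPart W.toCohomologyData V p = W.evK V) ∧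
      (¬ Even p → parityPart W.toCohomologyData V p = W.odK V) := by
  have h0 : ∀ p q : ℕ, (Even p ↔ Even q) → parityPart W.toCohomologyData V p =
      parityPart W.toCohomologyData V q := by
    intro p q h
    have h1 : {i : ℕ | Even (i + p)} = {i : ℕ | Even (i + q)} := by
      ext i
      simp only [Set.mem_ofPred_eq, Nat.even_add, h]
    unfold parityPart
    rw [h1]
  refine ⟨fun h => ?_, fun h => ?_⟩
  · rw [h0 p 0 (by simp [h])]
    rfl
  · rw [h0 p 1 (by simp [h])]
    exact Obs.odK_eq W V

/-- operators preserve the parity -/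
lemma operator_parity {V : SmProjVar k} {s : (W.H V →ₗ[K] W.H V) × K}
    (hs : IsOperator W.toCohomologyData V s) (p : ℕ) {y : W.H V}
    (hy : y ∈ parityPart W.toCohomologyData V p) :
    s.1 y ∈ parityPart W.toCohomologyData V p := by
  have hev : y ∈ W.evK V → s.1 y ∈ W.evK V := by
    intro hy
    refine (one_mem_bc_iff W).mp ?_
    rcases operator_cases W hs with ⟨γ, h⟩ | ⟨c, hc, h⟩
    · rw [h]
      exact (Sym.ev_od γ V).1 _ (Obs.one_ev W K hy)
    · rw [h]
      exact op_ev ((W.toSPre K).alg_le_ev _ (Obs.one_mem_alg W K hc)) (Obs.one_ev W K hy)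
  have hod : y ∈ W.odK V → s.1 y ∈ W.odK V := by
    intro hy
    refine (one_mem_bc_iff W).mp ?_
    rcases operator_cases W hs with ⟨γ, h⟩ | ⟨c, hc, h⟩
    · rw [h]
      exact (Sym.ev_od γ V).2 _ (Obs.one_od W K hy)
    · rw [h]
      exact op_od ((W.toSPre K).alg_le_ev _ (Obs.one_mem_alg W K hc)) (Obs.one_od W K hy)
  by_cases h : Even p
  · rw [(parity_eq W V p).1 h] at hy ⊢
    exact hev hy
  · rw [(parity_eq W V p).2 h] at hy ⊢
    exact hod hy

/-- operators preserve the residual classes -/
lemma operator_residual {X V : SmProjVar k} {s : (W.H V →ₗ[K] W.H V) × K}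
    (hs : IsOperator W.toCohomologyData V s) {y : W.H V}
    (hy : y ∈ residual W.toCohomologyData X V) :
    s.1 y ∈ residual W.toCohomologyData X V := by
  rw [mem_residual] at hy ⊢
  refine Obs.isResidual_of_mem_orth W K ?_
  have hy' := Obs.one_mem_orth W K hy
  rcases operator_cases W hs with ⟨γ, h⟩ | ⟨c, hc, h⟩
  · rw [h]
    exact orth_sym (fun y hy => image_sym_symm _ γ hy) hy'
  · rw [h]
    exact orth_op (fun c hc y hy => image_op _ hc hy) (Obs.one_mem_alg W K hc) hy'

/-- the residual classes are graded by the parity -/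
lemma residual_parts {X V : SmProjVar k} {y : W.H V}
    (hy : y ∈ residual W.toCohomologyData X V) :
    ∃ a ∈ residual W.toCohomologyData X V ⊓ W.evK V,
      ∃ b ∈ residual W.toCohomologyData X V ⊓ W.odK V, y = a + b := by
  have hy' : y ∈ W.evK V ⊔ W.odK V := by rw [(W.isCompl V).sup_eq_top]; trivial
  obtain ⟨a, ha, b, hb, rfl⟩ := Submodule.mem_sup.mp hy'
  rw [mem_residual] at hy
  have h1 := Obs.one_mem_orth W K hy
  rw [Obs.one_add] at h1
  obtain ⟨h2, h3⟩ := parts_mem (fun y hy => par_mem_orth (fun y hy => image_par _ hy) hy)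
    (Obs.one_ev W K ha) (Obs.one_od W K hb) h1
  exact ⟨a, ⟨(mem_residual W).mpr (Obs.isResidual_of_mem_orth W K h2), ha⟩, b,
    ⟨(mem_residual W).mpr (Obs.isResidual_of_mem_orth W K h3), hb⟩, rfl⟩

lemma parity_isCompl (V : SmProjVar k) (p : ℕ) :
    IsCompl (parityPart W.toCohomologyData V p) (parityPart W.toCohomologyData V (p + 1)) := by
  by_cases h : Even p
  · rw [(parity_eq W V p).1 h, (parity_eq W V (p + 1)).2 (by simp [Nat.even_add_one, h])]
    exact W.isCompl V
  · rw [(parity_eq W V p).2 h, (parity_eq W V (p + 1)).1 (by simp [Nat.even_add_one, h])]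
    exact (W.isCompl V).symm

lemma parity_cases (V : SmProjVar k) (p q : ℕ) :
    parityPart W.toCohomologyData V q = parityPart W.toCohomologyData V p ∨
      parityPart W.toCohomologyData V q = parityPart W.toCohomologyData V (p + 1) := by
  by_cases h : Even p <;> by_cases h' : Even q
  · exact .inl (by rw [(parity_eq W V p).1 h, (parity_eq W V q).1 h'])
  · exact .inr (by
      rw [(parity_eq W V (p + 1)).2 (by simp [Nat.even_add_one, h]), (parity_eq W V q).2 h'])
  · exact .inr (by
      rw [(parity_eq W V (p + 1)).1 (by simp [Nat.even_add_one, h]), (parity_eq W V q).1 h'])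
  · exact .inl (by rw [(parity_eq W V p).2 h, (parity_eq W V q).2 h'])

lemma residual_parts' {X V : SmProjVar k} (p : ℕ) {y : W.H V}
    (hy : y ∈ residual W.toCohomologyData X V) :
    ∃ a ∈ residual W.toCohomologyData X V ⊓ parityPart W.toCohomologyData V p,
      ∃ b ∈ residual W.toCohomologyData X V ⊓ parityPart W.toCohomologyData V (p + 1),
        y = a + b := by
  obtain ⟨a, ha, b, hb, rfl⟩ := residual_parts W hy
  by_cases h : Even p
  · rw [(parity_eq W V p).1 h, (parity_eq W V (p + 1)).2 (by simp [Nat.even_add_one, h])]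
    exact ⟨a, ha, b, hb, rfl⟩
  · rw [(parity_eq W V p).2 h, (parity_eq W V (p + 1)).1 (by simp [Nat.even_add_one, h])]
    exact ⟨b, hb, a, ha, add_comm _ _⟩

/-- extension of homomorphisms, by semisimplicity -/
lemma exists_extend {X V : SmProjVar k} {S : Set ((W.H V →ₗ[K] W.H V) × K)}
    (h : IsSelfDualTate W.toCohomologyData X V S) {F : Submodule K (W.H V)}
    (hF : F ≤ residual W.toCohomologyData X V) (hst : IsStable S F) {p : ℕ}
    (hp : F ≤ parityPart W.toCohomologyData V p) {f : W.H V →ₗ[K] W.H V}
    (hf : IsHom S F (residual W.toCohomologyData X V) f) :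
    ∃ f', IsHom S (residual W.toCohomologyData X V) (residual W.toCohomologyData X V) f' ∧
      ∀ y ∈ F, f' y = f y := by
  obtain ⟨F', hF', hst', hinf, hsup⟩ := h.semisimple F hF hst
  set N := residual W.toCohomologyData X V with hN
  set A := parityPart W.toCohomologyData V p with hA
  set B := parityPart W.toCohomologyData V (p + 1) with hB
  have hAB : ∀ z, z ∈ A → z ∈ B → z = 0 := fun z h1 h2 => by
    simpa using (parity_isCompl W V p).disjoint.le_bot ⟨h1, h2⟩
  have hdis : Disjoint ((F' ⊓ A) ⊔ (N ⊓ B)) F := by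
    rw [Submodule.disjoint_def]
    intro y hy hyF
    obtain ⟨a, ha, b, hb, rfl⟩ := Submodule.mem_sup.mp hy
    have h1 : b = 0 := by
      refine hAB b ?_ hb.2
      have h2 := A.sub_mem (hp hyF) ha.2
      rwa [add_sub_cancel_left] at h2
    rw [h1, add_zero] at hyF ⊢
    have h2 : a ∈ F ⊓ F' := ⟨hyF, ha.1⟩
    rw [hinf] at h2
    simpa using h2
  obtain ⟨Q, hQ, hQF⟩ := hdis.exists_isCompl
  have hdec : ∀ y ∈ N, ∃ a ∈ F, ∃ b ∈ F' ⊓ A, ∃ c ∈ N ⊓ B, y = a + b + c := by
    intro y hy
    obtain ⟨y₀, hy₀, c, hc, rfl⟩ := residual_parts' W p hy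
    have h1 : y₀ ∈ F ⊔ F' := by rw [hsup]; exact hy₀.1
    obtain ⟨a, ha, b, hb, rfl⟩ := Submodule.mem_sup.mp h1
    refine ⟨a, ha, b, ⟨hb, ?_⟩, c, hc, rfl⟩
    have h2 := A.sub_mem hy₀.2 (hp ha)
    rwa [add_sub_cancel_left] at h2
  set π : W.H V →ₗ[K] W.H V := F.subtype ∘ₗ F.projectionOnto Q hQF.symm with hπ
  have hπF : ∀ y ∈ F, π y = y := fun y hy =>
    congrArg Subtype.val (Submodule.projectionOnto_apply_left hQF.symm ⟨y, hy⟩)
  have hπQ : ∀ y ∈ Q, π y = 0 := fun y hy => by
    rw [hπ, LinearMap.comp_apply, (Submodule.projectionOnto_apply_eq_zero_iff hQF.symm).mpr hy,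
      map_zero]
  have hb' : ∀ y ∈ F' ⊓ A, π y = 0 := fun y hy => hπQ y (hQ (Submodule.mem_sup_left hy))
  have hc' : ∀ y ∈ N ⊓ B, π y = 0 := fun y hy => hπQ y (hQ (Submodule.mem_sup_right hy))
  have hπd : ∀ a ∈ F, ∀ b ∈ F' ⊓ A, ∀ c ∈ N ⊓ B, π (a + b + c) = a := by
    intro a ha b hb c hc
    rw [map_add, map_add, hπF a ha, hb' b hb, hc' c hc, add_zero, add_zero]
  obtain ⟨r, hr⟩ := hf.twist
  refine ⟨f ∘ₗ π, ⟨fun q y hy => ?_, r, fun s hs y hy => ?_⟩, fun y hy => ?_⟩
  · rcases parity_cases W V p q with hq | hq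
    · rw [hq] at hy ⊢
      obtain ⟨a, ha, b, hb, c, hc, rfl⟩ := hdec y hy.1
      rw [LinearMap.comp_apply, hπd a ha b hb c hc]
      exact hf.parity p a ⟨ha, hp ha⟩
    · rw [hq] at hy ⊢
      rw [LinearMap.comp_apply, hc' y hy, map_zero]
      exact Submodule.zero_mem _
  · obtain ⟨a, ha, b, hb, c, hc, rfl⟩ := hdec y hy
    have hop := h.operator s hs
    have h1 : π (s.1 (a + b + c)) = s.1 a := by
      rw [map_add s.1, map_add s.1]
      exact hπd _ (hst s hs a ha) _ ⟨hst' s hs b hb.1, operator_parity W hop p hb.2⟩ _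
        ⟨operator_residual W hop hc.1, operator_parity W hop (p + 1) hc.2⟩
    have h2 : (f ∘ₗ π) (s.1 (a + b + c)) = f (s.1 a) := congrArg f h1
    have h3 : (f ∘ₗ π) (a + b + c) = f a := congrArg f (hπd a ha b hb c hc)
    rw [h2, h3]
    exact hr s hs a ha
  · rw [LinearMap.comp_apply, hπF y hy]

/-- varieties of self-dual Tate type are anisotropic -/
theorem anisotropicOver {X X' V : SmProjVar k} {S : Set ((W.H V →ₗ[K] W.H V) × K)}
    (h : IsSelfDualTate W.toCohomologyData X V S)
    (hle : Obs.imageOfPowers W.toCohomologyData X V ≤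
      Obs.imageOfPowers W.toCohomologyData X' V) :
    Obs.AnisotropicOver W.toCohomologyData K X' V := by
  have hres : ∀ y, Obs.IsResidual W.toCohomologyData X' V y →
      y ∈ residual W.toCohomologyData X V := fun y hy =>
    (mem_residual W).mpr fun x hx => hy x (hle hx)
  constructor
  · -- the projector to the even part
    set e : W.H V →ₗ[K] W.H V :=
      (W.evK V).subtype ∘ₗ (W.evK V).projectionOnto (W.odK V) (W.isCompl V) with he
    have he0 : ∀ y ∈ W.evK V, e y = y := fun y hy =>
      congrArg Subtype.val (Submodule.projectionOnto_apply_left (W.isCompl V) ⟨y, hy⟩)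
    have he1 : ∀ y ∈ W.odK V, e y = 0 := fun y hy => by
      rw [he, LinearMap.comp_apply,
        (Submodule.projectionOnto_apply_eq_zero_iff (W.isCompl V)).mpr hy, map_zero]
    have hom : IsHom S (residual W.toCohomologyData X V) (residual W.toCohomologyData X V) e := by
      refine ⟨fun p y hy => ?_, 0, fun s hs y hy => ?_⟩
      · by_cases hp : Even p
        · rw [(parity_eq W V p).1 hp] at hy ⊢
          rw [he0 y hy.2]
          exact hy
        · rw [(parity_eq W V p).2 hp] at hy ⊢
          rw [he1 y hy.2]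
          exact Submodule.zero_mem _
      · obtain ⟨a, ha, b, hb, rfl⟩ := residual_parts W hy
        have hop := h.operator s hs
        have h1 := operator_parity W hop 0 ha.2
        have h2 := operator_parity W hop 1 (y := b) (by
          rw [(parity_eq W V 1).2 (by decide)]; exact hb.2)
        rw [(parity_eq W V 1).2 (by decide)] at h2
        rw [zpow_zero, one_smul, map_add, map_add, map_add, he0 _ h1, he1 _ h2, he0 _ ha.2,
          he1 _ hb.2, add_zero, add_zero]
    obtain ⟨u, hu, hue⟩ := h.algebraic e hom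
    refine ⟨u, hu, fun y₀ hy₀ y₁ hy₁ hy => ?_⟩
    rw [Obs.odK_eq] at hy₁
    rw [hue _ (hres _ hy), map_add, he0 _ hy₀, he1 _ hy₁, add_zero]
  · intro F hF halg hiso
    by_contra hne
    obtain ⟨p, hp⟩ := hF.parity
    have hFN : F ≤ residual W.toCohomologyData X V := fun y hy => hres y (hF.residual y hy)
    have hst : IsStable S F := by
      intro s hs y hy
      rcases h.operator s hs with ⟨g, hg, hgs⟩ | ⟨hs1, -⟩
      · have h1 := hF.symmetry (ext W g) s.2 (isSymmetry_ext W hg) y hy
        rw [ext_tmul] at h1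
        rw [hgs]
        exact Obs.mem_of_one_mem_baseChange K h1
      · exact halg _ hs1 y hy
    obtain ⟨f, hf, x, hx, y, hy, hxy⟩ := h.dual F hFN hst hne ⟨p, hp⟩
    obtain ⟨f', hf', hff'⟩ := exists_extend W h hFN hst hp hf
    obtain ⟨u, hu, huf⟩ := h.algebraic f' hf'
    have h1 := halg u hu y hy
    rw [huf y (hFN hy), hff' y hy] at h1
    exact hxy (hiso x hx _ h1)

theorem dp_prodList (l : List (SmProjVar k)) {X X' : SmProjVar k}
    (hX' : (W.toSPre K).DP X')
    (hle : ∀ V, Obs.imageOfPowers W.toCohomologyData X V ≤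
      Obs.imageOfPowers W.toCohomologyData X' V)
    (hl : ∀ V ∈ l, ∃ S, IsSelfDualTate W.toCohomologyData X V S) :
    (W.toSPre K).DP (prodList X' l) := by
  induction l generalizing X' with
  | nil => exact hX'
  | cons V l ih =>
    obtain ⟨S, hS⟩ := hl V List.mem_cons_self
    refine ih (X' := X'.prod V) ?_ (fun Z => (hle Z).trans (imageOfPowers_prod_le W X' V Z))
      fun Z hZ => hl Z (List.mem_cons_of_mem V hZ)
    exact Obs.dp_of_anisotropicOver W K (fun a _ => ⟨a, rfl⟩) hX' (anisotropicOver W hS (hle V))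

/-- **The standard conjecture D and the Tate conjecture for squares** -/
theorem standardD {X : SmProjVar k} (hX : ∀ n, W.StandardD (power X n))
    (l : List (SmProjVar k)) (hl : ∀ V ∈ l, ∃ S, IsSelfDualTate W.toCohomologyData X V S)
    {Y : SmProjVar k} (hY : imageOfPowers W.toCohomologyData (prodList X l) Y = ⊤) (n : ℕ) :
    W.StandardD (power Y n) := by
  rw [power_eq] at hX ⊢
  rw [imageOfPowers_eq] at hY
  rw [Obs.power_eq]
  exact W.standardD_of_D K _ (Obs.dp_of_imageOfPowers W K
    (dp_prodList W l (Obs.dp_of_power W K hX) (fun _ => le_rfl) hl) hY n)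

end Pool.Agent.Helper11.Sq
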